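import Pool.Agent.H4Eps.Main

/-!
Size, radical, coprimality and non-vanishing for the integral vectors `zv m B t`.
-/

namespace Pool.Agent.H4Eps

open Finset

/-- The constant coordinate. -/
def c0 (m B : ℕ) : ℕ := S m B - (m + 1)

theorem c0_pos (m B : ℕ) (hB : 2 ≤ B) : 0 < c0 m B := by
  have := S_ge m B hB
  unfold c0
  omega

theorem S_pos (m B : ℕ) (hB : 2 ≤ B) : 0 < S m B := by
  have := S_ge m B hB
  omega

theorem c0_cast (m B : ℕ) (hB : 2 ≤ B) : (c0 m B : ℤ) = (S m B : ℤ) - (m + 1) := by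
  have := S_ge m B hB
  unfold c0
  rw [Nat.cast_sub (by omega)]
  push_cast
  ring

theorem zv_last (m B : ℕ) (t : ℤ) : zv m B t (Fin.last (m + 3)) = -fv m B t := by
  simp [zv]

theorem zv_castSucc (m B : ℕ) (t : ℤ) (j : Fin (m + 3)) :
    zv m B t j.castSucc = cf m B j * t ^ expo B j := by
  simp [zv]

theorem cf_ne_zero (m B : ℕ) (hB : 2 ≤ B) (j : Fin (m + 3)) : cf m B j ≠ 0 := by
  have h1 := S_ge m B hB
  refine Fin.cases ?_ (fun j => ?_) j
  · simp only [cf, Fin.cons_zero]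
    omega
  · refine Fin.cases ?_ (fun j => ?_) j
    · simp only [cf, Fin.cons_succ, Fin.cons_zero]
      omega
    · simp [cf]

theorem fv_pos (m B : ℕ) (hB : 2 ≤ B) (t : ℤ) (ht : 2 ≤ t) : 0 < fv m B t := by
  rw [fv_eq m B hB]
  have := G_pos m B t (by omega)
  have h2 : 0 < t - 1 := by omega
  positivity

theorem zv_ne_zero (m B : ℕ) (hB : 2 ≤ B) (t : ℤ) (ht : 2 ≤ t) (i : Fin (m + 4)) :
    zv m B t i ≠ 0 := by
  refine Fin.lastCases ?_ (fun j => ?_) i
  · rw [zv_last]
    have := fv_pos m B hB t ht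
    omega
  · rw [zv_castSucc]
    exact mul_ne_zero (cf_ne_zero m B hB j) (pow_ne_zero _ (by omega))

theorem zv_coprime (m B : ℕ) (hB : 2 ≤ B) (q : ℕ) (hq : q.Prime) (hqc : c0 m B < q) (N : ℕ)
    (g : ℤ) (hg : ∀ i, g ∣ zv m B ((q : ℤ) ^ N) i) : IsUnit g := by
  have h0 : g ∣ (c0 m B : ℤ) := by
    have := hg (Fin.castSucc 0)
    rw [zv_castSucc] at this
    simpa [cf, expo, c0_cast m B hB] using this
  have h2 : g ∣ ((q : ℤ) ^ N) ^ B := by
    have := hg (Fin.castSucc (Fin.succ (Fin.succ 0)))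
    rw [zv_castSucc, cf, expo, Fin.cons_succ, Fin.cons_succ, Fin.cons_succ] at this
    simpa using this
  have hcop : IsCoprime (c0 m B : ℤ) (((q : ℤ) ^ N) ^ B) := by
    apply IsCoprime.pow_right
    apply IsCoprime.pow_right
    rw [Nat.isCoprime_iff_coprime, Nat.coprime_comm, hq.coprime_iff_not_dvd]
    exact Nat.not_dvd_of_pos_of_lt (c0_pos m B hB) hqc
  exact hcop.isUnit_of_dvd' h0 h2

/-- The product whose prime divisors contain those of the coordinates. -/
def M (m B q N : ℕ) : ℕ :=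
  c0 m B * S m B * q * ((((q : ℤ) ^ N - 1) * G m B ((q : ℤ) ^ N)).natAbs)

theorem prime_dvd_M (m B : ℕ) (hB : 2 ≤ B) (q : ℕ) (N : ℕ) (p : ℕ) (hp : p.Prime)
    (hd : p ∣ (∏ i, zv m B ((q : ℤ) ^ N) i).natAbs) : p ∣ M m B q N := by
  have hpi : Prime (p : ℤ) := Nat.prime_iff_prime_int.1 hp
  rw [← Int.natCast_dvd] at hd
  obtain ⟨i, -, hi⟩ := (Prime.dvd_finsetProd_iff hpi _).1 hd
  revert hi
  refine Fin.lastCases ?_ (fun j => ?_) i
  · intro hi
    rw [zv_last, dvd_neg, fv_eq m B hB] at hi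
    unfold M
    apply Dvd.dvd.mul_left
    rw [← Int.natCast_dvd]
    rcases hpi.dvd_or_dvd hi with h | h
    · exact Dvd.dvd.mul_right (hpi.dvd_of_dvd_pow h) _
    · exact Dvd.dvd.mul_left h _
  · intro hi
    rw [zv_castSucc] at hi
    rcases hpi.dvd_or_dvd hi with h | h
    · unfold M
      apply Dvd.dvd.mul_right
      apply Dvd.dvd.mul_right
      revert h
      refine Fin.cases ?_ (fun j => ?_) j
      · intro h
        simp only [cf, Fin.cons_zero] at h
        rw [← c0_cast m B hB] at h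
        exact Dvd.dvd.mul_right (Int.natCast_dvd_natCast.1 h) _
      · refine Fin.cases ?_ (fun j => ?_) j
        · intro h
          simp only [cf, Fin.cons_succ, Fin.cons_zero, dvd_neg] at h
          exact Dvd.dvd.mul_left (Int.natCast_dvd_natCast.1 h) _
        · intro h
          simp only [cf, Fin.cons_succ] at h
          exact absurd (isUnit_of_dvd_one h) hpi.not_isUnit
    · have h1 := hpi.dvd_of_dvd_pow h
      have h2 := hpi.dvd_of_dvd_pow h1
      have h3 := Int.natCast_dvd_natCast.1 h2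
      unfold M
      exact Dvd.dvd.mul_right (Dvd.dvd.mul_left h3 _) _

end Pool.Agent.H4Eps
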