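import Pool.Agent.H4Eps.Est

/-!
The final estimates.
-/

namespace Pool.Agent.H4Eps

open Finset

theorem sum_log_le (n M : ℕ) (hM : M ≠ 0) (h : ∀ p : ℕ, p.Prime → p ∣ n → p ∣ M) :
    ∑ p ∈ n.primeFactors, Real.log p ≤ Real.log M := by
  have hsub : n.primeFactors ⊆ M.primeFactors := by
    intro p hp
    rw [Nat.mem_primeFactors] at hp ⊢
    exact ⟨hp.1, h p hp.1 hp.2.1, hM⟩
  have h1 : ∑ p ∈ n.primeFactors, Real.log p ≤ ∑ p ∈ M.primeFactors, Real.log p := by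
    apply sum_le_sum_of_subset_of_nonneg hsub
    intro p hp _
    exact Real.log_natCast_nonneg p
  refine h1.trans ?_
  rw [← Real.log_prod]
  · apply Real.log_le_log
    · apply prod_pos
      intro p hp
      exact_mod_cast (Nat.prime_of_mem_primeFactors hp).pos
    · rw [← Nat.cast_prod]
      exact_mod_cast Nat.le_of_dvd (Nat.pos_of_ne_zero hM) (Nat.prod_primeFactors_dvd M)
  · intro p hp
    exact_mod_cast (Nat.prime_of_mem_primeFactors hp).ne_zero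

theorem tG_le (m B : ℕ) (hB : 2 ≤ B) (t : ℤ) (ht : 2 ≤ t) :
    (t - 1) * G m B t ≤ 2 * (m + 1) * t ^ (B ^ (m + 1) - 1) := by
  have h1 := fv_le m B hB t (by omega)
  rw [fv_eq m B hB] at h1
  have hd : B ^ (m + 1) = (B ^ (m + 1) - 1) + 1 := by
    have : 0 < B ^ (m + 1) := pow_pos (by omega) _
    omega
  have hd' : t ^ (B ^ (m + 1)) = t ^ (B ^ (m + 1) - 1) * t := by
    conv_lhs => rw [hd, pow_succ]
  rw [hd'] at h1
  have ht1 : 0 < t - 1 := by omega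
  have hp : 0 < t ^ (B ^ (m + 1) - 1) := pow_pos (by omega) _
  have h2 : (m + 1 : ℤ) * (t ^ (B ^ (m + 1) - 1) * t) ≤
      (m + 1) * (t ^ (B ^ (m + 1) - 1) * (2 * (t - 1))) := by
    apply mul_le_mul_of_nonneg_left _ (by positivity)
    apply mul_le_mul_of_nonneg_left _ hp.le
    omega
  have h3 : (t - 1) * ((t - 1) * G m B t) ≤
      (t - 1) * (2 * (m + 1) * t ^ (B ^ (m + 1) - 1)) := by
    nlinarith
  exact le_of_mul_le_mul_left h3 ht1

/-- The constant in the bound for the radical. -/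
def Kc (m B q : ℕ) : ℕ := c0 m B * S m B * q * (2 * (m + 1))

theorem M_le (m B : ℕ) (hB : 2 ≤ B) (q N : ℕ) (ht : 2 ≤ q ^ N) :
    M m B q N ≤ Kc m B q * (q ^ N) ^ (B ^ (m + 1) - 1) := by
  unfold M Kc
  rw [mul_assoc (c0 m B * S m B * q)]
  apply Nat.mul_le_mul_left
  have h := tG_le m B hB ((q : ℤ) ^ N) (by exact_mod_cast ht)
  have hpos : 0 ≤ ((q : ℤ) ^ N - 1) * G m B ((q : ℤ) ^ N) := by
    have h1 : (2 : ℤ) ≤ (q : ℤ) ^ N := by exact_mod_cast ht
    have := G_pos m B ((q : ℤ) ^ N) (by omega)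
    have h2 : 0 ≤ (q : ℤ) ^ N - 1 := by omega
    positivity
  zify
  rw [abs_of_nonneg hpos]
  exact h

theorem M_ne_zero (m B : ℕ) (hB : 2 ≤ B) (q N : ℕ) (hq : 0 < q) (ht : 2 ≤ q ^ N) :
    M m B q N ≠ 0 := by
  unfold M
  have h1 : (2 : ℤ) ≤ (q : ℤ) ^ N := by exact_mod_cast ht
  have := G_pos m B ((q : ℤ) ^ N) (by omega)
  have h2 : 0 < (q : ℤ) ^ N - 1 := by omega
  have h3 : ((q : ℤ) ^ N - 1) * G m B ((q : ℤ) ^ N) ≠ 0 := by positivity
  have h4 := c0_pos m B hB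
  have h5 := S_pos m B hB
  have h6 := Int.natAbs_ne_zero.2 h3
  simp only [ne_eq, mul_eq_zero, not_or]
  exact ⟨⟨⟨h4.ne', h5.ne'⟩, hq.ne'⟩, h6⟩

/-- The bound for the radical. -/
theorem rad_le (m B : ℕ) (hB : 2 ≤ B) (q N : ℕ) (hq : 0 < q) (ht : 2 ≤ q ^ N) :
    ∑ p ∈ (∏ i, zv m B ((q : ℤ) ^ N) i).natAbs.primeFactors, Real.log p ≤
      Real.log (Kc m B q) + ((B ^ (m + 1) : ℕ) - 1 : ℝ) * (N * Real.log q) := by
  refine (sum_log_le _ (M m B q N) (M_ne_zero m B hB q N hq ht)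
    (prime_dvd_M m B hB q N)).trans ?_
  have h1 : ((M m B q N : ℕ) : ℝ) ≤ ((Kc m B q * (q ^ N) ^ (B ^ (m + 1) - 1) : ℕ) : ℝ) := by
    exact_mod_cast M_le m B hB q N ht
  have hd : 0 < B ^ (m + 1) := pow_pos (by omega) _
  have hK : (Kc m B q : ℝ) ≠ 0 := by
    have h4 := c0_pos m B hB
    have h5 := S_pos m B hB
    unfold Kc
    have : c0 m B * S m B * q * (2 * (m + 1)) ≠ 0 := by positivity
    exact_mod_cast this
  refine (Real.log_le_log (by exact_mod_cast Nat.pos_of_ne_zero (M_ne_zero m B hB q N hq ht))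
    h1).trans ?_
  push_cast
  rw [Real.log_mul hK (by positivity), Real.log_pow, Real.log_pow,
    Nat.cast_sub (by omega)]
  push_cast
  exact le_rfl

/-- The bound for the height. -/
theorem le_height (m B : ℕ) (q N : ℕ) (hq : 0 < q) :
    ((B ^ (m + 1) : ℕ) : ℝ) * (N * Real.log q) ≤
      Real.log ((univ.sup fun i => (zv m B ((q : ℤ) ^ N) i).natAbs : ℕ) : ℝ) := by
  have h1 : (zv m B ((q : ℤ) ^ N) (Fin.castSucc (Fin.succ (Fin.succ (Fin.last m))))).natAbs =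
      (q ^ N) ^ (B ^ (m + 1)) := by
    rw [zv_castSucc, cf, expo, Fin.cons_succ, Fin.cons_succ, Fin.cons_succ]
    simp [Int.natAbs_pow]
  have h2 : (q ^ N) ^ (B ^ (m + 1)) ≤
      (univ.sup fun i => (zv m B ((q : ℤ) ^ N) i).natAbs : ℕ) := by
    rw [← h1]
    exact le_sup (f := fun i => (zv m B ((q : ℤ) ^ N) i).natAbs) (mem_univ _)
  have h3 : Real.log (((q ^ N) ^ (B ^ (m + 1)) : ℕ) : ℝ) ≤
      Real.log ((univ.sup fun i => (zv m B ((q : ℤ) ^ N) i).natAbs : ℕ) : ℝ) := by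
    apply Real.log_le_log
    · exact_mod_cast pow_pos (pow_pos hq _) _
    · exact_mod_cast h2
  refine le_trans ?_ h3
  push_cast
  rw [Real.log_pow, Real.log_pow]
  push_cast
  exact le_rfl

end Pool.Agent.H4Eps
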