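import Mathlib

/-!
Substituting monomials with rapidly growing exponents into a homogeneous polynomial.
-/

namespace Pool.Agent.H4Eps

open Finset

theorem digits_inj (B : ℕ) (p : ℕ) (x y : Fin p → ℕ) (hx : ∀ j, x j < B) (hy : ∀ j, y j < B)
    (h : ∑ j, x j * B ^ (j : ℕ) = ∑ j, y j * B ^ (j : ℕ)) : x = y := by
  induction p with
  | zero => funext j; exact j.elim0
  | succ p ih =>
    rw [Fin.sum_univ_succ, Fin.sum_univ_succ] at h
    have e : ∀ w : Fin (p + 1) → ℕ, ∑ j : Fin p, w j.succ * B ^ (j.succ : ℕ) =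
        (∑ j : Fin p, w j.succ * B ^ (j : ℕ)) * B := by
      intro w
      rw [sum_mul]
      refine sum_congr rfl fun j _ => ?_
      rw [Fin.val_succ, pow_succ, mul_assoc]
    rw [e, e] at h
    simp only [Fin.val_zero, pow_zero, mul_one] at h
    have h0 : x 0 = y 0 := by
      have h1 := congrArg (· % B) h
      simp only [Nat.add_mul_mod_self_right] at h1
      rwa [Nat.mod_eq_of_lt (hx 0), Nat.mod_eq_of_lt (hy 0)] at h1
    have h2 : (∑ j : Fin p, x j.succ * B ^ (j : ℕ)) = ∑ j : Fin p, y j.succ * B ^ (j : ℕ) := by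
      rw [h0] at h
      have hB : 0 < B := lt_of_le_of_lt (Nat.zero_le _) (hx 0)
      exact Nat.eq_of_mul_eq_mul_right hB (Nat.add_left_cancel h)
    have h3 := ih (fun j => x j.succ) (fun j => y j.succ) (fun j => hx _) (fun j => hy _) h2
    funext j
    refine Fin.cases h0 (fun j => ?_) j
    exact congrFun h3 j

/-- The exponents `0, 1, B, B ^ 2, …`. -/
def expo (B : ℕ) {p : ℕ} : Fin (p + 1) → ℕ := Fin.cons 0 fun j : Fin p => B ^ (j : ℕ)

theorem expo_inj (B e : ℕ) (hB : e < B) {p : ℕ} (α β : Fin (p + 1) →₀ ℕ)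
    (hα : α.degree = e) (hβ : β.degree = e)
    (h : ∑ j, α j * expo B j = ∑ j, β j * expo B j) : α = β := by
  have hdeg : ∀ γ : Fin (p + 1) →₀ ℕ, γ.degree = ∑ j, γ j := by
    intro γ
    rw [Finsupp.degree_eq_sum]
  rw [hdeg] at hα hβ
  rw [Fin.sum_univ_succ, Fin.sum_univ_succ] at h
  simp only [expo, Fin.cons_zero, mul_zero, zero_add, Fin.cons_succ] at h
  rw [Fin.sum_univ_succ] at hα hβ
  have h1 := digits_inj B p (fun j => α j.succ) (fun j => β j.succ)
    (fun j => lt_of_le_of_lt ((single_le_sum (f := fun j : Fin p => α j.succ)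
      (fun _ _ => Nat.zero_le _) (mem_univ j)).trans (by omega)) hB)
    (fun j => lt_of_le_of_lt ((single_le_sum (f := fun j : Fin p => β j.succ)
      (fun _ _ => Nat.zero_le _) (mem_univ j)).trans (by omega)) hB) h
  have h2 : ∑ j : Fin p, α j.succ = ∑ j : Fin p, β j.succ := by
    refine sum_congr rfl fun j _ => congrFun h1 j
  ext j
  refine Fin.cases ?_ (fun j => ?_) j
  · omega
  · exact congrFun h1 j

open Polynomial in
theorem aeval_ne_zero (B e : ℕ) (hB : e < B) {p : ℕ} (G : MvPolynomial (Fin (p + 1)) ℂ)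
    (hG : G.IsHomogeneous e) (hG0 : G ≠ 0) (c : Fin (p + 1) → ℂ) (hc : ∀ j, c j ≠ 0) :
    MvPolynomial.aeval (fun j => C (c j) * X ^ expo B j : Fin (p + 1) → ℂ[X]) G ≠ 0 := by
  obtain ⟨α, hα⟩ := MvPolynomial.ne_zero_iff.1 hG0
  intro h
  have h1 := congrArg (fun f : ℂ[X] => f.coeff (∑ j, α j * expo B j)) h
  simp only [coeff_zero] at h1
  rw [MvPolynomial.aeval_def, MvPolynomial.eval₂_eq', finsetSum_coeff,
    Finset.sum_eq_single α] at h1
  · have h2 : ∏ i, (C (c i) * X ^ expo B i) ^ α i =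
        C (∏ i, c i ^ α i) * X ^ (∑ j, α j * expo B j) := by
      rw [map_prod, ← prod_pow_eq_pow_sum, ← prod_mul_distrib]
      refine prod_congr rfl fun i _ => ?_
      rw [mul_pow, ← pow_mul, C_pow, mul_comm (expo B i)]
    rw [h2, ← mul_assoc, coeff_mul_X_pow', if_pos le_rfl, Nat.sub_self] at h1
    change (C (G.coeff α) * C _ : ℂ[X]).coeff 0 = 0 at h1
    rw [← C_mul, coeff_C_zero] at h1
    rcases mul_eq_zero.1 h1 with h3 | h3
    · exact hα h3
    · exact (prod_ne_zero_iff.2 fun i _ => pow_ne_zero _ (hc i)) h3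
  · intro β hβ hne
    have h2 : ∏ i, (C (c i) * X ^ expo B i) ^ β i =
        C (∏ i, c i ^ β i) * X ^ (∑ j, β j * expo B j) := by
      rw [map_prod, ← prod_pow_eq_pow_sum, ← prod_mul_distrib]
      refine prod_congr rfl fun i _ => ?_
      rw [mul_pow, ← pow_mul, C_pow, mul_comm (expo B i)]
    rw [h2, ← mul_assoc]
    change (C (G.coeff β) * C _ * X ^ _ : ℂ[X]).coeff _ = 0
    rw [← C_mul, coeff_C_mul_X_pow, if_neg]
    intro heq
    apply hne
    apply expo_inj B e hB β α _ _ heq.symm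
    · by_contra hd
      exact MvPolynomial.mem_support_iff.1 hβ (hG.coeff_eq_zero hd)
    · by_contra hd
      exact hα (hG.coeff_eq_zero hd)
  · intro hα'
    exact absurd (MvPolynomial.mem_support_iff.2 hα) hα'

end Pool.Agent.H4Eps
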