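import Pool.Agent.H4Eps.Poly
import Pool.Agent.H4Eps.Subst

/-!
Points of large quality outside a given hypersurface.
-/

namespace Pool.Agent.H4Eps

open Finset

/-- `1 + B + … `: the sum of the exponents `B, B ^ 2, …, B ^ (m + 1)`. -/
def S (m B : ℕ) : ℕ := ∑ j : Fin (m + 1), B ^ ((j : ℕ) + 1)

/-- The coefficients. -/
def cf (m B : ℕ) : Fin (m + 3) → ℤ :=
  Fin.cons ((S m B : ℤ) - (m + 1)) (Fin.cons (-(S m B : ℤ)) fun _ => 1)

/-- The polynomial whose negative is the last coordinate. -/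
def fv (m B : ℕ) (t : ℤ) : ℤ := ∑ j : Fin (m + 3), cf m B j * t ^ expo B j

/-- The integral vector. -/
def zv (m B : ℕ) (t : ℤ) : Fin (m + 4) → ℤ :=
  Fin.snoc (fun j : Fin (m + 3) => cf m B j * t ^ expo B j) (-fv m B t)

theorem sum_zv (m B : ℕ) (t : ℤ) : ∑ i, zv m B t i = 0 := by
  rw [zv, Fin.sum_univ_castSucc]
  simp [fv]

theorem S_ge (m B : ℕ) (hB : 2 ≤ B) : 2 * (m + 1) ≤ S m B := by
  have h : ∑ _j : Fin (m + 1), 2 ≤ S m B := by
    apply sum_le_sum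
    intro j _
    calc 2 ≤ B := hB
      _ = B ^ 1 := (pow_one B).symm
      _ ≤ B ^ ((j : ℕ) + 1) := Nat.pow_le_pow_right (by omega) (by omega)
  simpa [mul_comm] using h

/-- The sum of the quotients. -/
def G (m B : ℕ) (t : ℤ) : ℤ := ∑ j : Fin (m + 1), quot t (B ^ ((j : ℕ) + 1) - 2)

theorem fv_eq (m B : ℕ) (hB : 2 ≤ B) (t : ℤ) : fv m B t = (t - 1) ^ 2 * G m B t := by
  rw [fv, G, mul_sum, Fin.sum_univ_succ, Fin.sum_univ_succ]
  simp only [cf, expo, Fin.cons_zero, Fin.cons_succ, pow_zero, mul_one, Fin.val_zero, pow_one,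
    one_mul, Fin.val_succ]
  have h : ∀ j : Fin (m + 1), (t - 1) ^ 2 * quot t (B ^ ((j : ℕ) + 1) - 2) =
      t ^ (B ^ ((j : ℕ) + 1)) - (B ^ ((j : ℕ) + 1) : ℕ) * t + ((B ^ ((j : ℕ) + 1) : ℕ) - 1) := by
    intro j
    have h2 : 2 ≤ B ^ ((j : ℕ) + 1) := by
      calc 2 ≤ B := hB
        _ = B ^ 1 := (pow_one B).symm
        _ ≤ B ^ ((j : ℕ) + 1) := Nat.pow_le_pow_right (by omega) (by omega)
    obtain ⟨b, hb⟩ := Nat.exists_eq_add_of_le' h2
    rw [← quot_spec, hb, Nat.add_sub_cancel]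
    push_cast
    ring
  simp only [h, sum_add_distrib, sum_sub_distrib, ← sum_mul, ← Nat.cast_sum]
  simp only [S, sum_const, card_univ, Fintype.card_fin, nsmul_eq_mul, mul_one]
  push_cast
  ring

theorem quot_pos (t : ℤ) (ht : 0 ≤ t) (b : ℕ) : 0 < quot t b := by
  induction b with
  | zero => simp [quot]
  | succ b ih =>
    rw [quot]
    positivity

theorem G_pos (m B : ℕ) (t : ℤ) (ht : 0 ≤ t) : 0 < G m B t := by
  apply sum_pos
  · intro j _
    exact quot_pos t ht _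
  · exact univ_nonempty

theorem fv_le (m B : ℕ) (hB : 2 ≤ B) (t : ℤ) (ht : 1 ≤ t) :
    fv m B t ≤ (m + 1) * t ^ (B ^ (m + 1)) := by
  rw [fv, Fin.sum_univ_succ, Fin.sum_univ_succ]
  simp only [cf, expo, Fin.cons_zero, Fin.cons_succ, pow_zero, mul_one, Fin.val_zero, pow_one,
    one_mul, Fin.val_succ]
  have h1 : ∑ j : Fin (m + 1), t ^ (B ^ ((j : ℕ) + 1)) ≤
      ∑ _j : Fin (m + 1), t ^ (B ^ (m + 1)) := by
    apply sum_le_sum
    intro j _
    apply pow_le_pow_right₀ ht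
    apply Nat.pow_le_pow_right (by omega)
    have := j.2
    omega
  rw [sum_const, card_univ, Fintype.card_fin, nsmul_eq_mul] at h1
  have hS : (0 : ℤ) ≤ S m B := Int.natCast_nonneg _
  have h2 : (S m B : ℤ) * 1 ≤ S m B * t := mul_le_mul_of_nonneg_left ht hS
  push_cast at h1 ⊢
  have h3 : (0 : ℤ) ≤ m + 1 := by positivity
  linarith

end Pool.Agent.H4Eps
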