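import Mathlib

/-!
Elementary facts on the polynomials `t ^ a - a t + (a - 1)` and on substitutions of monomials with
rapidly growing exponents.
-/

namespace Pool.Agent.H4Eps

open Finset

/-- The quotient of `t ^ (a + 2) - (a + 2) t + (a + 1)` by `(t - 1) ^ 2`. -/
def quot (t : ℤ) : ℕ → ℤ
  | 0 => 1
  | b + 1 => quot t b * t + (b + 2)

theorem quot_spec (t : ℤ) (b : ℕ) :
    t ^ (b + 2) - (b + 2) * t + (b + 1) = (t - 1) ^ 2 * quot t b := by
  induction b with
  | zero => simp [quot]; ring
  | succ b ih =>
    rw [quot, mul_add, ← mul_assoc, ← ih]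
    push_cast
    ring

end Pool.Agent.H4Eps
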