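import Pool.Agent.H4Eps.Final

/-!
The theorem: points of quality larger than `1 + ε` outside every hypersurface of small degree.
-/

namespace Pool.Agent.H4Eps

open Finset Filter Topology

/-- The restriction of `F` to the hyperplane, in the first coordinates. -/
noncomputable def restr (m : ℕ) (F : MvPolynomial (Fin (m + 4)) ℂ) :
    MvPolynomial (Fin (m + 3)) ℂ :=
  MvPolynomial.aeval (Fin.snoc (fun j : Fin (m + 3) => (MvPolynomial.X j :
    MvPolynomial (Fin (m + 3)) ℂ)) (-∑ j, MvPolynomial.X j)) F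

theorem restr_homog (m e : ℕ) (F : MvPolynomial (Fin (m + 4)) ℂ) (hF : F.IsHomogeneous e) :
    (restr m F).IsHomogeneous e := by
  have h := hF.aeval (n := 1) (g := (Fin.snoc (fun j : Fin (m + 3) => (MvPolynomial.X j :
    MvPolynomial (Fin (m + 3)) ℂ)) (-∑ j, MvPolynomial.X j) :
      Fin (m + 4) → MvPolynomial (Fin (m + 3)) ℂ)) (by
    intro i
    refine Fin.lastCases ?_ (fun j => ?_) i
    · rw [Fin.snoc_last]
      apply MvPolynomial.IsHomogeneous.neg
      apply MvPolynomial.IsHomogeneous.sum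
      intro j _
      exact MvPolynomial.isHomogeneous_X _ _
    · rw [Fin.snoc_castSucc]
      exact MvPolynomial.isHomogeneous_X _ _)
  simpa [restr] using h

theorem eval_restr (m : ℕ) (F : MvPolynomial (Fin (m + 4)) ℂ) (y : Fin (m + 3) → ℂ) :
    MvPolynomial.eval y (restr m F) =
      MvPolynomial.eval (Fin.snoc y (-∑ j, y j) : Fin (m + 4) → ℂ) F := by
  unfold restr
  rw [MvPolynomial.aeval_def, MvPolynomial.algebraMap_eq, MvPolynomial.eval_eval₂,
    MvPolynomial.eval₂_eq', MvPolynomial.eval_eq']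
  refine sum_congr rfl fun d _ => ?_
  congr 1
  · simp
  · refine prod_congr rfl fun i _ => ?_
    congr 1
    refine Fin.lastCases ?_ (fun j => ?_) i
    · simp
    · simp

theorem restr_ne_zero (m : ℕ) (F : MvPolynomial (Fin (m + 4)) ℂ)
    (hF : ∃ x : Fin (m + 4) → ℂ, ∑ i, x i = 0 ∧ MvPolynomial.eval x F ≠ 0) :
    restr m F ≠ 0 := by
  obtain ⟨x, hx, hxF⟩ := hF
  intro h
  apply hxF
  have h1 := eval_restr m F (fun j => x j.castSucc)
  rw [h, map_zero] at h1
  rw [h1]
  congr 1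
  rw [Fin.sum_univ_castSucc] at hx
  congr 1
  funext i
  refine Fin.lastCases ?_ (fun j => ?_) i
  · rw [Fin.snoc_last]
    linear_combination hx
  · rw [Fin.snoc_castSucc]

/-- For a large exponent the point is not on the hypersurface. -/
theorem eventually_ne (m e B : ℕ) (he : e < B) (hB : 2 ≤ B) (F : MvPolynomial (Fin (m + 4)) ℂ)
    (hF : F.IsHomogeneous e)
    (hF0 : ∃ x : Fin (m + 4) → ℂ, ∑ i, x i = 0 ∧ MvPolynomial.eval x F ≠ 0)
    (q : ℕ) (hq : 2 ≤ q) :
    ∀ᶠ N : ℕ in atTop,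
      MvPolynomial.eval (fun i => (zv m B ((q : ℤ) ^ N) i : ℂ)) F ≠ 0 := by
  classical
  have hΦ := aeval_ne_zero B e he (restr m F) (restr_homog m e F hF) (restr_ne_zero m F hF0)
    (fun j => (cf m B j : ℂ)) (fun j => by exact_mod_cast cf_ne_zero m B hB j)
  set Φ : Polynomial ℂ := MvPolynomial.aeval (fun j => Polynomial.C ((cf m B j : ℂ)) *
    Polynomial.X ^ expo B j : Fin (m + 2 + 1) → Polynomial ℂ) (restr m F) with hΦdef
  have hev : ∀ N : ℕ, Φ.eval ((q : ℂ) ^ N) =
      MvPolynomial.eval (fun i => (zv m B ((q : ℤ) ^ N) i : ℂ)) F := by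
    intro N
    have h1 : Φ.eval ((q : ℂ) ^ N) =
        MvPolynomial.eval (fun j => (cf m B j : ℂ) * ((q : ℂ) ^ N) ^ expo B j) (restr m F) := by
      rw [hΦdef, MvPolynomial.aeval_def, MvPolynomial.eval₂_eq', MvPolynomial.eval_eq',
        Polynomial.eval_finsetSum]
      refine sum_congr rfl fun d _ => ?_
      rw [Polynomial.eval_mul, Polynomial.eval_prod]
      congr 1
      · simp
      · refine prod_congr rfl fun i _ => ?_
        simp
    rw [h1, eval_restr]
    congr 1
    congr 1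
    funext i
    refine Fin.lastCases ?_ (fun j => ?_) i
    · rw [Fin.snoc_last, zv_last, fv]
      push_cast
      rfl
    · rw [Fin.snoc_castSucc, zv_castSucc]
      push_cast
      rfl
  have hinj : Function.Injective fun N : ℕ => ((q : ℂ) ^ N) := by
    intro a b hab
    have h1 : ((q ^ a : ℕ) : ℂ) = ((q ^ b : ℕ) : ℂ) := by
      push_cast
      exact hab
    exact Nat.pow_right_injective hq (Nat.cast_injective h1)
  have hfin : (Function.support fun N : ℕ => (if Φ.eval ((q : ℂ) ^ N) = 0 then (1 : ℕ) else 0)).Finite := by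
    apply Set.Finite.subset (Set.Finite.preimage hinj.injOn (Φ.roots.toFinset.finite_toSet))
    intro N hN
    simp only [Function.mem_support, ne_eq, ite_eq_right_iff, one_ne_zero, imp_false,
      not_not] at hN
    simp only [Set.mem_preimage, Finset.mem_coe, Multiset.mem_toFinset]
    exact (Polynomial.mem_roots hΦ).2 hN
  obtain ⟨b, hb⟩ := hfin.bddAbove
  filter_upwards [eventually_gt_atTop b] with N hN h0
  have : N ∈ Function.support fun N : ℕ => (if Φ.eval ((q : ℂ) ^ N) = 0 then (1 : ℕ) else 0) := by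
    simp only [Function.mem_support, ne_eq, ite_eq_right_iff, one_ne_zero, imp_false, not_not]
    rw [hev N, h0]
  exact absurd (hb this) (not_le.2 hN)

theorem main (m e : ℕ) (he : 0 < e) (F : MvPolynomial (Fin (m + 4)) ℂ) (hF : F.IsHomogeneous e)
    (hF0 : ∃ x : Fin (m + 4) → ℂ, ∑ i, x i = 0 ∧ MvPolynomial.eval x F ≠ 0)
    (ε C : ℝ) (hε : 0 < ε) (hε1 : ε * ((e + 1) ^ (m + 1) - 1) < 1) :
    ∃ z : Fin (m + 4) → ℤ, (∀ i, z i ≠ 0) ∧ ∑ i, z i = 0 ∧ (∀ g : ℤ, (∀ i, g ∣ z i) → IsUnit g) ∧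
      MvPolynomial.eval (fun i => (z i : ℂ)) F ≠ 0 ∧
      (1 + ε) * (∑ p ∈ (∏ i, z i).natAbs.primeFactors, Real.log p) + C ≤
        Real.log ((univ.sup fun i => (z i).natAbs : ℕ) : ℝ) := by
  set B := e + 1 with hBdef
  have hB : 2 ≤ B := by omega
  obtain ⟨q, hqc, hq⟩ := Nat.exists_infinite_primes (c0 m B + 1)
  have hq2 := hq.two_le
  have h1 := eventually_ne m e B (by omega) hB F hF hF0 q hq2
  have hlog : 0 < Real.log q := Real.log_pos (by exact_mod_cast hq.one_lt)
  have hδ : 0 < 1 - ε * (((B ^ (m + 1) : ℕ) : ℝ) - 1) := by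
    push_cast
    rw [hBdef]
    push_cast
    linarith
  have hlim : Tendsto (fun N : ℕ => (1 - ε * (((B ^ (m + 1) : ℕ) : ℝ) - 1)) * (N * Real.log q))
      atTop atTop := by
    apply Tendsto.const_mul_atTop hδ
    exact Tendsto.atTop_mul_const hlog tendsto_natCast_atTop_atTop
  have h2 := hlim.eventually_ge_atTop ((1 + ε) * Real.log (Kc m B q) + C)
  obtain ⟨N, ⟨hN1, hN2⟩, hN3⟩ := ((h1.and h2).and (eventually_ge_atTop 1)).exists
  have ht : 2 ≤ q ^ N := by
    calc 2 ≤ q := hq2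
      _ = q ^ 1 := (pow_one q).symm
      _ ≤ q ^ N := Nat.pow_le_pow_right (by omega) hN3
  refine ⟨zv m B ((q : ℤ) ^ N), zv_ne_zero m B hB _ (by exact_mod_cast ht), sum_zv m B _,
    zv_coprime m B hB q hq (by omega) N, hN1, ?_⟩
  have h3 := rad_le m B hB q N (by omega) ht
  have h4 := le_height m B q N (by omega)
  have h5 : (1 + ε) * (∑ p ∈ (∏ i, zv m B ((q : ℤ) ^ N) i).natAbs.primeFactors, Real.log p) ≤
      (1 + ε) * (Real.log (Kc m B q) + ((B ^ (m + 1) : ℕ) - 1 : ℝ) * (N * Real.log q)) :=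
    mul_le_mul_of_nonneg_left h3 (by linarith)
  linarith

end Pool.Agent.H4Eps
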